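import Mathlib
set_option autoImplicit false

/-!
Two number theory tools.
* `cover_of_consec`: n residue classes that cover 2^n consecutive integers cover all integers
  (Crittenden and Vanden Eynden), by sums of exponentials.
* `pow_omega_le`: for every k there is C with (2^omega(M))^k at most C M.
-/

namespace Pool.Agent.H4G.Asy

open Finset

/-- a sum of exponentials with `K` terms that vanishes at `K` consecutive integers vanishes -/
theorem expsum_zero {ι : Type*} [DecidableEq ι] (T : Finset ι) (z : ι → ℂ)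
    (hz : ∀ i ∈ T, z i ≠ 0) (c : ι → ℂ) (s : ℤ)
    (h : ∀ x : ℤ, s ≤ x → x < s + T.card → ∑ i ∈ T, c i * z i ^ x = 0) :
    ∀ x : ℤ, ∑ i ∈ T, c i * z i ^ x = 0 := by
  induction T using Finset.induction_on generalizing c with
  | empty => intro x; simp
  | insert j T hj ih =>
    have hzT : ∀ i ∈ T, z i ≠ 0 := fun i hi => hz i (mem_insert_of_mem hi)
    have hzj : z j ≠ 0 := hz j (mem_insert_self _ _)
    have hcard : ((insert j T).card : ℤ) = T.card + 1 := by
      rw [card_insert_of_notMem hj]; push_cast; ring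
    have key : ∀ x : ℤ, (∑ i ∈ insert j T, c i * z i ^ (x + 1))
        - z j * (∑ i ∈ insert j T, c i * z i ^ x) = ∑ i ∈ T, (c i * (z i - z j)) * z i ^ x := by
      intro x
      rw [sum_insert hj, sum_insert hj, mul_add, mul_sum]
      have e : ∑ i ∈ T, (c i * (z i - z j)) * z i ^ x
          = ∑ i ∈ T, c i * z i ^ (x + 1) - ∑ i ∈ T, z j * (c i * z i ^ x) := by
        rw [← sum_sub_distrib]
        refine sum_congr rfl fun i hi => ?_
        rw [zpow_add_one₀ (hzT i hi)]; ring
      rw [e, zpow_add_one₀ hzj]; ring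
    have hT := ih hzT (fun i => c i * (z i - z j)) (by
      intro x h1 h2
      rw [← key x, h (x + 1) (by omega) (by omega), h x (by omega) (by omega)]; ring)
    have step : ∀ x : ℤ, (∑ i ∈ insert j T, c i * z i ^ (x + 1))
        = z j * (∑ i ∈ insert j T, c i * z i ^ x) := by
      intro x
      have := key x
      rw [hT x] at this
      exact sub_eq_zero.1 this
    have h0 : ∑ i ∈ insert j T, c i * z i ^ s = 0 := h s le_rfl (by omega)
    have up : ∀ n : ℕ, ∑ i ∈ insert j T, c i * z i ^ (s + n) = 0 := by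
      intro n
      induction n with
      | zero => simpa using h0
      | succ n ihn =>
        have := step (s + n)
        rw [ihn, mul_zero] at this
        push_cast
        rw [← add_assoc]; exact this
    have dn : ∀ n : ℕ, ∑ i ∈ insert j T, c i * z i ^ (s - n) = 0 := by
      intro n
      induction n with
      | zero => simpa using h0
      | succ n ihn =>
        have := step (s - (n + 1 : ℕ))
        have e : s - ((n + 1 : ℕ) : ℤ) + 1 = s - n := by push_cast; ring
        rw [e, ihn] at this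
        rcases mul_eq_zero.1 this.symm with h | h
        · exact absurd h hzj
        · exact h
    intro x
    rcases le_total s x with hx | hx
    · have := up (x - s).toNat
      rwa [Int.toNat_of_nonneg (by omega), add_sub_cancel] at this
    · have := dn (s - x).toNat
      rwa [Int.toNat_of_nonneg (by omega), sub_sub_cancel] at this

/-- the exponential that detects a residue class -/
theorem exp_class {m : ℤ} (hm : 0 < m) (y : ℤ) :
    Complex.exp (2 * Real.pi * Complex.I / m) ^ y = 1 ↔ m ∣ y := by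
  have hm' : (m : ℂ) ≠ 0 := by exact_mod_cast hm.ne'
  rw [← Complex.exp_int_mul, Complex.exp_eq_one_iff]
  have hpi : (2 * (Real.pi : ℂ) * Complex.I) ≠ 0 := Complex.two_pi_I_ne_zero
  constructor
  · rintro ⟨n, hn⟩
    refine ⟨n, ?_⟩
    have : (y : ℂ) * (2 * Real.pi * Complex.I) = (m * n) * (2 * Real.pi * Complex.I) := by
      field_simp at hn
      linear_combination (2 * Real.pi * Complex.I) * hn
    have := mul_right_cancel₀ hpi this
    exact_mod_cast this
  · rintro ⟨n, rfl⟩
    refine ⟨n, ?_⟩
    push_cast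
    field_simp

/-- Crittenden and Vanden Eynden: `n` residue classes which cover `2^n` consecutive integers
cover all integers. -/
theorem cover_of_consec {ι : Type*} [DecidableEq ι] (T : Finset ι) (m a : ι → ℤ)
    (hm : ∀ i ∈ T, 0 < m i) (s : ℤ)
    (h : ∀ x : ℤ, s ≤ x → x < s + 2 ^ T.card → ∃ i ∈ T, m i ∣ x - a i) :
    ∀ x : ℤ, ∃ i ∈ T, m i ∣ x - a i := by
  classical
  set ζ : ι → ℂ := fun i => Complex.exp (2 * Real.pi * Complex.I / m i) with hζ
  have hζ0 : ∀ i, ζ i ≠ 0 := fun i => Complex.exp_ne_zero _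
  have iff1 : ∀ x : ℤ, (∃ i ∈ T, m i ∣ x - a i) ↔ ∏ i ∈ T, (1 - ζ i ^ (x - a i)) = 0 := by
    intro x
    rw [prod_eq_zero_iff]
    refine exists_congr fun i => and_congr_right fun hi => ?_
    rw [sub_eq_zero, eq_comm, exp_class (hm i hi)]
  have expand : ∀ x : ℤ, ∏ i ∈ T, (1 - ζ i ^ (x - a i))
      = ∑ t ∈ T.powerset, (∏ i ∈ t, (-(ζ i ^ (- a i)))) * (∏ i ∈ t, ζ i) ^ x := by
    intro x
    have e : ∀ i ∈ T, (1 - ζ i ^ (x - a i)) = (-(ζ i ^ (- a i))) * ζ i ^ x + 1 := by
      intro i _
      rw [sub_eq_add_neg x, zpow_add₀ (hζ0 i)]; ring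
    rw [prod_congr rfl e, prod_add]
    refine sum_congr rfl fun t ht => ?_
    rw [prod_const_one, mul_one, prod_mul_distrib, Finset.prod_zpow]
  have main := expsum_zero T.powerset (fun t => ∏ i ∈ t, ζ i)
    (fun t _ => prod_ne_zero_iff.2 fun i _ => hζ0 i)
    (fun t => ∏ i ∈ t, (-(ζ i ^ (- a i)))) s (by
      intro x h1 h2
      rw [card_powerset] at h2
      push_cast at h2
      rw [← expand x, ← iff1 x]
      exact h x h1 h2)
  intro x
  rw [iff1 x, expand x]
  exact main x

/-- the form used: if some integer avoids the classes then every interval of `2^n`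
consecutive integers contains one that does -/
theorem exists_avoid {ι : Type*} (T : Finset ι) (m a : ι → ℤ)
    (hm : ∀ i ∈ T, 0 < m i) {x₀ : ℤ} (h₀ : ∀ i ∈ T, ¬ m i ∣ x₀ - a i) (s : ℤ) :
    ∃ x : ℤ, s ≤ x ∧ x < s + 2 ^ T.card ∧ ∀ i ∈ T, ¬ m i ∣ x - a i := by
  classical
  by_contra hcon
  push Not at hcon
  obtain ⟨i, hi, h⟩ := cover_of_consec T m a hm s hcon x₀
  exact h₀ i hi h

/-- `(2^omega(M))^k` is at most `C M` -/
theorem pow_omega_le (k : ℕ) : ∃ C : ℕ, 0 < C ∧ ∀ M : ℕ, M ≠ 0 →
    (2 ^ M.primeFactors.card) ^ k ≤ C * M := by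
  refine ⟨(2 ^ k) ^ (2 ^ k), by positivity, fun M hM => ?_⟩
  rw [← pow_mul, mul_comm, pow_mul]
  have e : (2 ^ k) ^ M.primeFactors.card = ∏ p ∈ M.primeFactors, 2 ^ k := by
    rw [prod_const]
  rw [e, ← prod_filter_mul_prod_filter_not M.primeFactors (fun p => p < 2 ^ k)]
  refine Nat.mul_le_mul ?_ ?_
  · rw [prod_const]
    refine Nat.pow_le_pow_right (by positivity) ?_
    have : (M.primeFactors.filter (fun p => p < 2 ^ k)) ⊆ range (2 ^ k) := by
      intro p hp
      simp only [mem_filter] at hp
      simpa using hp.2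
    simpa using card_le_card this
  · calc ∏ p ∈ M.primeFactors.filter (fun p => ¬ p < 2 ^ k), 2 ^ k
        ≤ ∏ p ∈ M.primeFactors.filter (fun p => ¬ p < 2 ^ k), p := by
          refine prod_le_prod' fun p hp => ?_
          simp only [mem_filter] at hp
          omega
      _ ≤ ∏ p ∈ M.primeFactors, p := by
          refine prod_le_prod_of_subset_of_one_le' (filter_subset _ _) ?_
          intro p hp _
          exact (Nat.prime_of_mem_primeFactors hp).one_lt.le
      _ ≤ M := Nat.le_of_dvd (Nat.pos_of_ne_zero hM) (Nat.prod_primeFactors_dvd M)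

end Pool.Agent.H4G.Asy
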